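import Mathlib
import Pool.Agent.H387R3.ZT.Final3

/-!
# The degree over `ℚ_p` of the splitting field of `P(C_n, s)` tends to infinity

For every `ℤ_p`-tower of curves `C_n` over a finite field of characteristic `p`, ramified over finitely
many closed points.
-/

open PowerSeries

namespace Pool.Agent.Results.MP_7758f8_nt.DegreeUnbounded

open Pool.Agent.H707R3

open scoped PowerSeries.WithPiTopology in
/-- The zeta function `Z(C, s) = ∏ (1 - s ^ deg x)⁻¹`, product over the closed points `x` of the curve
`C` with function field `K` over `k`. -/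
noncomputable def zeta (p : ℕ) [Fact p.Prime] (k K : Type) [Field k] [Field K] [Algebra k K] :
    PowerSeries ℂ_[p] :=
  ∏' x : Place k K, (1 - X ^ x.deg)⁻¹

/-- `A` is the multiset of reciprocal roots of `P(C, s) = Z(C, s) (1 - s) (1 - q s)`, `q = #k`:
`P(C, s) = ∏ (1 - β s)`, product over `β ∈ A`. -/
def IsRecipRoots (p : ℕ) [Fact p.Prime] (k K : Type) [Field k] [Field K] [Algebra k K]
    (A : Multiset ℂ_[p]) : Prop :=
  zeta p k K * (1 - X) * (1 - C (Nat.card k : ℂ_[p]) * X) = (A.map fun β => 1 - C β * X).prod

/-- For every `ℤ_p`-tower and every `R`, for all large `n` the zeta function of the layer `C_n` (the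
intermediate field `K` with `[K : F] = p ^ n`) has reciprocal roots as above, and the field they
generate over `ℚ_p` is finite of degree at least `R`. -/
theorem result (p : ℕ) [Fact p.Prime] (k F E : Type) [Field k] [Finite k] [CharP k p]
    [Field F] [Algebra k F] [Field E] [Algebra F E] [Algebra k E] [IsScalarTower k F E]
    (h : IsZpTower k F E p) (R : ℕ) :
    ∃ N : ℕ, ∀ n, N ≤ n →
      ∀ K : IntermediateField F E, Module.finrank F K = p ^ n →
        (∃ A, IsRecipRoots p k K A) ∧
          ∀ A, IsRecipRoots p k K A →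
            R ≤ Module.finrank ℚ_[p] (IntermediateField.adjoin ℚ_[p] {β : ℂ_[p] | β ∈ A}) := by
  obtain ⟨N, hN⟩ := H387R3.ZT.deg_large h R
  exact ⟨N, fun n hn K hK => ⟨H387R3.ZT.exists_roots h K n hK, fun A hA => hN n hn K hK A hA⟩⟩

end Pool.Agent.Results.MP_7758f8_nt.DegreeUnbounded
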